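import Pool.Agent.LUB.Stmts

/-!
# Squad LUB, row LGD: the logarithmic derivative
-/

set_option autoImplicit false

open Polynomial

namespace Pool.Agent.LUB.H69

open Pool.Agent.LUB

/-! ### the derivation `δ` on `A[Y]` -/

section del

variable {A : Type} [CommRing A] [Differential A]

/-- `δ g = F' g^d - g' F^d` -/
noncomputable def del (F : A[X]) : Derivation ℤ A[X] A[X] :=
  (derivative F) • Differential.mapCoeffs -
    (Differential.mapCoeffs F) • (Polynomial.derivative' (R := A)).restrictScalars ℤ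

theorem del_apply (F g : A[X]) : del F g =
    derivative F * Differential.mapCoeffs g - derivative g * Differential.mapCoeffs F := by
  unfold del
  rw [Derivation.sub_apply, Derivation.smul_apply, Derivation.smul_apply, smul_eq_mul, smul_eq_mul,
    mul_comm (derivative g)]
  rfl

theorem del_self (F : A[X]) : del F F = 0 := by
  rw [del_apply, sub_self]

theorem del_C (F : A[X]) (c : A) (hc : Differential.deriv c = 0) : del F (C c) = 0 := by
  rw [del_apply, Differential.mapCoeffs_C, hc, derivative_C]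
  simp

theorem del_C_mul (F g : A[X]) (c : A) (hc : Differential.deriv c = 0) :
    del F (C c * g) = C c * del F g := by
  rw [Derivation.leibniz, del_C F c hc, smul_zero, add_zero, smul_eq_mul]

theorem del_mul_self (F g : A[X]) : del F (F * g) = F * del F g := by
  rw [Derivation.leibniz, del_self, smul_zero, add_zero, smul_eq_mul]

theorem telescope (p : ℕ) (w : A[X]) (c : ℕ → A[X])
    (hc : ∀ k : ℕ, k ≠ 0 → (k : A[X]) * c k = (-1) ^ (k + 1) * (p : A[X]) ^ (2 * k)) (n : ℕ) :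
    (1 + (p : A[X]) ^ 2 * w) *
        ∑ k ∈ Finset.range (n + 1), c k * ((k : A[X]) * w ^ (k - 1)) =
      (p : A[X]) ^ 2 * (1 - (-((p : A[X]) ^ 2 * w)) ^ n) := by
  induction n with
  | zero => simp
  | succ n ih =>
    rw [Finset.sum_range_succ, mul_add, ih, Nat.add_sub_cancel]
    have h1 := hc (n + 1) (Nat.succ_ne_zero n)
    have h2 : c (n + 1) * (((n + 1 : ℕ) : A[X]) * w ^ n) =
        (-1) ^ (n + 1 + 1) * (p : A[X]) ^ (2 * (n + 1)) * w ^ n := by
      rw [← h1]
      ring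
    rw [h2]
    have h3 : (-((p : A[X]) ^ 2 * w)) ^ n = (-1) ^ n * (p : A[X]) ^ (2 * n) * w ^ n := by
      rw [neg_pow, mul_pow, ← pow_mul]
      ring
    have h4 : (-((p : A[X]) ^ 2 * w)) ^ (n + 1) =
        (-1) ^ n * (p : A[X]) ^ (2 * n) * w ^ n * (-((p : A[X]) ^ 2 * w)) := by
      rw [pow_succ, h3]
    rw [h4, h3]
    ring

theorem step1 (p : ℕ) (F w l a b : A[X]) (c : ℕ → A) (hc0 : ∀ k, Differential.deriv (c k) = 0)
    (hc : ∀ k : ℕ, k ≠ 0 → (k : A[X]) * C (c k) = (-1) ^ (k + 1) * (p : A[X]) ^ (2 * k)) (n : ℕ)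
    (hl : l = ∑ k ∈ Finset.range (n + 1), C (c k) * w ^ k + C ((p : A) ^ (n + 1)) * a + F * b) :
    ∃ a' b' : A[X], (1 + (p : A[X]) ^ 2 * w) * del F l - (p : A[X]) ^ 2 * del F w =
      C ((p : A) ^ n) * a' + F * b' := by
  have hp : Differential.deriv ((p : A) ^ (n + 1)) = 0 := by
    rw [← Nat.cast_pow]
    exact Derivation.map_natCast _ _
  have h1 : del F l = (∑ k ∈ Finset.range (n + 1), C (c k) * ((k : A[X]) * w ^ (k - 1))) * del F w
      + C ((p : A) ^ (n + 1)) * del F a + F * del F b := by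
    rw [hl, map_add, map_add, map_sum, del_C_mul _ _ _ hp, del_mul_self, Finset.sum_mul]
    congr 2
    refine Finset.sum_congr rfl fun k _ => ?_
    rw [del_C_mul _ _ _ (hc0 k), Derivation.leibniz_pow, smul_eq_mul, nsmul_eq_mul]
    ring
  have h2 := telescope p w (fun k => C (c k)) hc n
  refine ⟨-((p : A[X]) ^ 2 * (-((p : A[X]) * w)) ^ n * del F w) +
    (1 + (p : A[X]) ^ 2 * w) * ((p : A[X]) * del F a), (1 + (p : A[X]) ^ 2 * w) * del F b, ?_⟩
  have h3 : (-((p : A[X]) ^ 2 * w)) ^ n = (p : A[X]) ^ n * (-((p : A[X]) * w)) ^ n := by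
    rw [← mul_pow]
    congr 1
    ring
  rw [h3] at h2
  have h4 : C ((p : A) ^ n) = (p : A[X]) ^ n := by
    rw [C_pow, C_eq_natCast]
  have h5 : C ((p : A) ^ (n + 1)) = (p : A[X]) ^ n * (p : A[X]) := by
    rw [C_pow, C_eq_natCast, pow_succ]
  rw [h1, h4, h5]
  linear_combination (del F w) * h2

end del

/-! ### divisibility -/

theorem zp_zero (p : ℕ) [hp : Fact p.Prime] (x : ℤ_[p]) (h : ∀ n : ℕ, (p : ℤ_[p]) ^ n ∣ x) :
    x = 0 := by
  have h1 : ∀ n : ℕ, ‖x‖ ≤ (p : ℝ)⁻¹ ^ n := by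
    intro n
    obtain ⟨y, rfl⟩ := h n
    rw [norm_mul, norm_pow, PadicInt.norm_p]
    exact mul_le_of_le_one_right (by positivity) (PadicInt.norm_le_one y)
  have h2 : Filter.Tendsto (fun n : ℕ => (p : ℝ)⁻¹ ^ n) Filter.atTop (nhds 0) :=
    tendsto_pow_atTop_nhds_zero_of_lt_one (by positivity)
      (inv_lt_one_of_one_lt₀ (by exact_mod_cast hp.out.one_lt))
  have h3 : ‖x‖ ≤ 0 := ge_of_tendsto' h2 h1
  exact norm_le_zero_iff.1 h3

theorem ps_zero (p : ℕ) [hp : Fact p.Prime] (x : PowerSeries ℤ_[p])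
    (h : ∀ n : ℕ, (p : PowerSeries ℤ_[p]) ^ n ∣ x) : x = 0 := by
  ext k
  rw [map_zero]
  refine zp_zero p _ fun n => ?_
  obtain ⟨y, rfl⟩ := h n
  refine ⟨PowerSeries.coeff k y, ?_⟩
  have h1 : (p : PowerSeries ℤ_[p]) ^ n = PowerSeries.C ((p : ℤ_[p]) ^ n) := by
    rw [map_pow, map_natCast]
  rw [h1, PowerSeries.coeff_C_mul]

theorem step2 (p : ℕ) [hp : Fact p.Prime] (F E : (PowerSeries ℤ_[p])[X]) (hF : F.Monic)
    (h : ∀ n : ℕ, ∃ a b : (PowerSeries ℤ_[p])[X],
      E = C ((p : PowerSeries ℤ_[p]) ^ n) * a + F * b) : F ∣ E := by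
  rw [← Polynomial.modByMonic_eq_zero_iff_dvd hF]
  ext1 i
  rw [coeff_zero]
  refine ps_zero p _ fun n => ?_
  obtain ⟨a, b, rfl⟩ := h n
  refine ⟨(a %ₘ F).coeff i, ?_⟩
  have h1 : (C ((p : PowerSeries ℤ_[p]) ^ n) * a + F * b) %ₘ F =
      C ((p : PowerSeries ℤ_[p]) ^ n) * (a %ₘ F) := by
    rw [add_modByMonic, ← smul_eq_C_mul, smul_modByMonic, smul_eq_C_mul]
    rw [(Polynomial.modByMonic_eq_zero_iff_dvd hF).2 (dvd_mul_right F b), add_zero]
  rw [h1, coeff_C_mul]

/-- a differential ring from an additive map with the product rule -/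
@[reducible]
noncomputable def mkD (A : Type) [CommRing A] (d : A →+ A)
    (h : ∀ a b, d (a * b) = a * d b + b * d a) : Differential A where
  deriv := Derivation.mk' d.toIntLinearMap h

theorem mkD_apply (A : Type) [CommRing A] (d : A →+ A)
    (h : ∀ a b, d (a * b) = a * d b + b * d a) (x : A) : (mkD A d h).deriv x = d x := rfl

/-- the ring of the power series with its derivative -/
@[reducible]
noncomputable def dS (p : ℕ) [Fact p.Prime] : Differential (PowerSeries ℤ_[p]) :=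
  mkD _ (PowerSeries.derivative ℤ_[p]).toLinearMap.toAddMonoidHom
    (fun a b => (PowerSeries.derivative ℤ_[p]).leibniz a b)

theorem dS_apply (p : ℕ) [Fact p.Prime] (g : PowerSeries ℤ_[p]) :
    (dS p).deriv g = PowerSeries.derivative ℤ_[p] g := rfl

/-- Row LGD. -/
theorem lgd : LgdStmt := by
  intro p hp F w l hF hlog Ω _ _ _ D hD θ hθ hθ'
  letI i1 : Differential (PowerSeries ℤ_[p]) := dS p
  letI i2 : Differential Ω := ⟨D⟩
  haveI i3 : DifferentialAlgebra (PowerSeries ℤ_[p]) Ω := ⟨hD⟩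
  have hder : ∀ g : (PowerSeries ℤ_[p])[X], D (aeval θ g) =
      aeval θ (Differential.mapCoeffs g) + aeval θ (derivative g) * D θ :=
    fun g => Differential.deriv_aeval_eq θ g
  have h0 : aeval θ (Differential.mapCoeffs F) = -(aeval θ (derivative F) * D θ) := by
    have h1 := hder F
    rw [hθ, map_zero] at h1
    linear_combination -h1
  have hdel : ∀ g : (PowerSeries ℤ_[p])[X], aeval θ (del F g) =
      aeval θ (derivative F) * D (aeval θ g) := by
    intro g
    rw [del_apply, map_sub, map_mul, map_mul, h0, hder g]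
    ring
  have hdvd : F ∣ (1 + (p : (PowerSeries ℤ_[p])[X]) ^ 2 * w) * del F l -
      (p : (PowerSeries ℤ_[p])[X]) ^ 2 * del F w := by
    refine step2 p F _ hF fun n => ?_
    obtain ⟨a, b, hab⟩ := hlog (n + 1)
    refine step1 p F w l a b (fun k => algebraMap ℤ_[p] (PowerSeries ℤ_[p]) (lc p k)) ?_ ?_ n hab
    · intro k
      exact Derivation.map_algebraMap (PowerSeries.derivative ℤ_[p]) (lc p k)
    · intro k hk
      have h2 := congrArg (fun x => (C (algebraMap ℤ_[p] (PowerSeries ℤ_[p]) x) :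
        (PowerSeries ℤ_[p])[X])) (lc_spec p k hk)
      simpa using h2
  obtain ⟨h, hh⟩ := hdvd
  have h3 := congrArg (aeval θ) hh
  rw [map_mul, hθ, zero_mul, map_sub, map_mul, map_mul, hdel, hdel, map_add, map_mul, map_pow,
    map_one, map_natCast] at h3
  have h4 : aeval θ (derivative F) * (D (aeval θ l) * (1 + (p : Ω) ^ 2 * aeval θ w)) =
      aeval θ (derivative F) * ((p : Ω) ^ 2 * D (aeval θ w)) := by
    linear_combination h3
  exact mul_left_cancel₀ hθ' h4

end Pool.Agent.LUB.H69
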